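import Mathlib

/-!
# The circular mixing threshold of every finite graph is rational

For a fixed graph, whether `G` is `(k, q)`-mixing depends only on the signs of finitely many
integer linear forms in `(k, q)`, as long as none of these forms vanishes at `(k, q)`.
-/

set_option autoImplicit false

namespace Pool.Agent.Results.MP_05142a_co.Rational

section defs

variable {V : Type} (G : SimpleGraph V)

/-- `f` is a `(k, q)`-colouring of `G`: values in `{0, ..., k - 1}` and
`q ≤ |f u - f v| ≤ k - q` for every edge `uv`. -/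
def IsColouring (k q : ℕ) (f : V → ℤ) : Prop :=
  (∀ v, 0 ≤ f v ∧ f v < k) ∧ ∀ u v, G.Adj u v → (q : ℤ) ≤ |f u - f v| ∧ |f u - f v| ≤ k - q

/-- One move: both maps are `(k, q)`-colourings, and they agree except possibly at one vertex. -/
def Move (k q : ℕ) (f g : V → ℤ) : Prop :=
  IsColouring G k q f ∧ IsColouring G k q g ∧ ∃ v, ∀ u, u ≠ v → f u = g u

/-- `G` is `(k, q)`-mixing: any two `(k, q)`-colourings are joined by a sequence of moves. -/
def IsMixing (k q : ℕ) : Prop :=
  ∀ f g, IsColouring G k q f → IsColouring G k q g → Relation.ReflTransGen (Move G k q) f g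

/-- The set of the positive rationals `ℓ` such that `G` is `(k, q)`-mixing for all positive
integers `k`, `q` with `k / q ≥ ℓ`. -/
def mixingSet : Set ℝ :=
  {x | ∃ ℓ : ℚ, 0 < ℓ ∧ x = ℓ ∧ ∀ k q : ℕ, 0 < k → 0 < q → ℓ ≤ (k : ℚ) / q → IsMixing G k q}

/-- The circular mixing threshold: the infimum of `mixingSet G`. -/
noncomputable def circularMixingThreshold : ℝ := sInf (mixingSet G)

end defs

/-! ### Systems of difference constraints -/

section systems

variable {I : Type} [Fintype I]

/-- Systems of difference constraints `x_i + a k + b q ≤ x_j` with `0 ≤ x_i < k`. -/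
def Solves (E : I → I → ℤ → ℤ → Prop) (k q : ℤ) (x : I → ℤ) : Prop :=
  (∀ i, 0 ≤ x i ∧ x i < k) ∧ ∀ i j a b, E i j a b → x i + a * k + b * q ≤ x j

/-- same signs for all forms with coefficients at most `N` -/
def SameSigns (N : ℤ) (k q k' q' : ℤ) : Prop :=
  ∀ A B : ℤ, |A| ≤ N → |B| ≤ N → (0 ≤ A * k + B * q ↔ 0 ≤ A * k' + B * q')

theorem transfer (E : I → I → ℤ → ℤ → Prop) (hE : ∀ i j a b, E i j a b → |a| ≤ 1 ∧ |b| ≤ 1)
    {k q k' q' : ℤ} {N : ℤ} (hN : 2 * (Fintype.card I : ℤ) + 1 ≤ N)
    (hsame : SameSigns N k q k' q') {x : I → ℤ} (hx : Solves E k q x) :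
    ∃ x', Solves E k' q' x' := by
  classical
  -- a solution with minimal sum
  obtain ⟨y, hy, hmin⟩ : ∃ y, Solves E k q y ∧ ∀ z, Solves E k q z →
      (∑ i, y i).toNat ≤ (∑ i, z i).toNat := by
    have hne : ({m : ℕ | ∃ z, Solves E k q z ∧ (∑ i, z i).toNat = m}).Nonempty := ⟨_, x, hx, rfl⟩
    obtain ⟨y, hy, hy2⟩ := Nat.sInf_mem hne
    exact ⟨y, hy, fun z hz => by rw [hy2]; exact Nat.sInf_le ⟨z, hz, rfl⟩⟩
  let rep : ℕ → Finset I := fun m =>
    Finset.univ.filter fun i => ∃ a b : ℤ, |a| ≤ m ∧ |b| ≤ m ∧ y i = a * k + b * q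
  have hmem : ∀ m i, i ∈ rep m ↔ ∃ a b : ℤ, |a| ≤ m ∧ |b| ≤ m ∧ y i = a * k + b * q := by
    intro m i; simp [rep]
  have hmono : ∀ m, rep m ⊆ rep (m + 1) := by
    intro m i hi
    rw [hmem] at hi ⊢
    obtain ⟨a, b, ha, hb, h⟩ := hi
    exact ⟨a, b, by push_cast; linarith, by push_cast; linarith, h⟩
  have hzero : ∀ m i, y i = 0 → i ∈ rep m := by
    intro m i hi
    rw [hmem]
    exact ⟨0, 0, by simp, by simp, by rw [hi]; ring⟩
  have hgrow : ∀ m, rep m ≠ Finset.univ → (rep m).card < (rep (m + 1)).card := by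
    intro m hm
    apply Finset.card_lt_card
    refine ⟨hmono m, fun hsub => ?_⟩
    -- otherwise we could decrease the complement of `rep m`
    obtain ⟨i₀, hi₀⟩ : ∃ i, i ∉ rep m := by
      by_contra hcon
      push Not at hcon
      exact hm (Finset.eq_univ_iff_forall.mpr hcon)
    let z : I → ℤ := fun i => if i ∈ rep m then y i else y i - 1
    have hz : Solves E k q z := by
      refine ⟨fun i => ?_, fun i j a b hE' => ?_⟩
      · by_cases h : i ∈ rep m
        · simp only [z, if_pos h]; exact hy.1 i
        · simp only [z, if_neg h]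
          have h1 := hy.1 i
          have h2 : y i ≠ 0 := fun h3 => h (hzero m i h3)
          omega
      · have h1 := hy.2 i j a b hE'
        by_cases hi : i ∈ rep m
        · by_cases hj : j ∈ rep m
          · simp only [z, if_pos hi, if_pos hj]; exact h1
          · simp only [z, if_pos hi, if_neg hj]
            rcases eq_or_lt_of_le h1 with h2 | h2
            · exfalso
              apply hj
              apply hsub
              obtain ⟨ha, hb⟩ := hE i j a b hE'
              rw [hmem] at hi ⊢
              obtain ⟨a', b', ha', hb', h3⟩ := hi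
              refine ⟨a' + a, b' + b, ?_, ?_, ?_⟩
              · push_cast; exact (abs_add_le _ _).trans (by linarith)
              · push_cast; exact (abs_add_le _ _).trans (by linarith)
              · rw [← h2, h3]; ring
            · omega
        · by_cases hj : j ∈ rep m
          · simp only [z, if_neg hi, if_pos hj]; omega
          · simp only [z, if_neg hi, if_neg hj]; omega
    have h1 := hmin z hz
    have h2 : ∑ i, z i < ∑ i, y i := by
      apply Finset.sum_lt_sum
      · intro i _
        by_cases h : i ∈ rep m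
        · simp only [z, if_pos h]; exact le_refl _
        · simp only [z, if_neg h]; omega
      · exact ⟨i₀, Finset.mem_univ _, by simp only [z, if_neg hi₀]; omega⟩
    have h3 : 0 ≤ ∑ i, z i := Finset.sum_nonneg fun i _ => (hz.1 i).1
    omega
  have hcard : ∀ m, rep m = Finset.univ ∨ m ≤ (rep m).card := by
    intro m
    induction m with
    | zero => right; exact Nat.zero_le _
    | succ m ih =>
      by_cases h : rep m = Finset.univ
      · left
        exact Finset.eq_univ_of_forall fun i => hmono m (by rw [h]; exact Finset.mem_univ i)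
      · right
        rcases ih with h1 | h1
        · exact absurd h1 h
        · have := hgrow m h; omega
  have huniv : rep (Fintype.card I) = Finset.univ := by
    rcases hcard (Fintype.card I) with h | h
    · exact h
    · exact (Finset.card_eq_iff_eq_univ _).mp (le_antisymm (Finset.card_le_univ _) h)
  have hrep : ∀ i, ∃ a b : ℤ, |a| ≤ (Fintype.card I : ℤ) ∧ |b| ≤ (Fintype.card I : ℤ) ∧
      y i = a * k + b * q := fun i => (hmem _ i).mp (by rw [huniv]; exact Finset.mem_univ i)
  choose a b ha hb hab using hrep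
  refine ⟨fun i => a i * k' + b i * q', fun i => ⟨?_, ?_⟩, fun i j c d hE' => ?_⟩
  · have h1 := (hy.1 i).1
    rw [hab] at h1
    exact (hsame _ _ ((ha i).trans (by linarith [abs_nonneg (a i), ha i]))
      ((hb i).trans (by linarith [abs_nonneg (a i), ha i]))).mp h1
  · have h1 := (hy.1 i).2
    rw [hab] at h1
    by_contra h2
    push Not at h2
    have h3 : 0 ≤ (a i - 1) * k' + b i * q' := by linarith
    have h4 : |a i - 1| ≤ N := by
      have := abs_sub (a i) 1
      rw [abs_one] at this
      linarith [ha i, abs_nonneg (a i)]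
    rw [← hsame _ _ h4 ((hb i).trans (by linarith [abs_nonneg (a i), ha i]))] at h3
    linarith
  · have h1 := hy.2 i j c d hE'
    rw [hab i, hab j] at h1
    obtain ⟨hc, hd⟩ := hE i j c d hE'
    have h2 : 0 ≤ (a j - a i - c) * k + (b j - b i - d) * q := by linarith
    have h3 : ∀ p r s : ℤ, |p| ≤ (Fintype.card I : ℤ) → |r| ≤ (Fintype.card I : ℤ) → |s| ≤ 1 →
        |p - r - s| ≤ N := by
      intro p r s hp hr hs
      rw [abs_le] at hp hr hs ⊢
      constructor <;> linarith [hp.1, hp.2, hr.1, hr.2, hs.1, hs.2]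
    rw [hsame _ _ (h3 _ _ _ (ha j) (ha i) hc) (h3 _ _ _ (hb j) (hb i) hd)] at h2
    linarith

end systems

/-! ### Transfer of colourings and moves -/

section colourings

variable {V : Type} (G : SimpleGraph V)

/-- `f` and `g` induce the same orientation of the edges -/
def SameOri (f g : V → ℤ) : Prop := ∀ u v, G.Adj u v → (f u < f v ↔ g u < g v)

theorem SameOri.symm {f g : V → ℤ} (h : SameOri G f g) : SameOri G g f :=
  fun u v huv => (h u v huv).symm

theorem SameOri.trans {f g h : V → ℤ} (h1 : SameOri G f g) (h2 : SameOri G g h) :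
    SameOri G f h := fun u v huv => (h1 u v huv).trans (h2 u v huv)

/-- the graph `G` with a copy `none` of the vertex `w` -/
def adj' (w : V) : Option V → Option V → Prop
  | some u, some v => G.Adj u v
  | none, some v => G.Adj w v
  | some v, none => G.Adj v w
  | none, none => False

theorem adj'_symm (w : V) (i j : Option V) (h : adj' G w i j) : adj' G w j i := by
  cases i <;> cases j
  · exact h
  · exact SimpleGraph.Adj.symm h
  · exact SimpleGraph.Adj.symm h
  · exact SimpleGraph.Adj.symm h

variable [Fintype V]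

theorem lift_move {k q k' q' : ℕ} (hq : 0 < q) {N : ℤ} (hN : 2 * (Fintype.card V : ℤ) + 3 ≤ N)
    (hsame : SameSigns N k q k' q') (w : V) {f g : V → ℤ} (hf : IsColouring G k q f)
    (hg : IsColouring G k q g) (hfg : ∀ u, u ≠ w → f u = g u) :
    ∃ f' g' : V → ℤ, IsColouring G k' q' f' ∧ IsColouring G k' q' g' ∧
      (∀ u, u ≠ w → f' u = g' u) ∧ SameOri G f f' ∧ SameOri G g g' := by
  classical
  let x : Option V → ℤ := fun o => match o with
    | none => g w
    | some v => f v
  let E : Option V → Option V → ℤ → ℤ → Prop := fun i j a b =>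
    (adj' G w i j ∧ x i < x j ∧ a = 0 ∧ b = 1) ∨ (adj' G w i j ∧ x j < x i ∧ a = -1 ∧ b = 1)
  have hx0 : ∀ i, 0 ≤ x i ∧ x i < k := by
    rintro (_ | v)
    · exact hg.1 w
    · exact hf.1 v
  have hx : ∀ i j, adj' G w i j → (q : ℤ) ≤ |x i - x j| ∧ |x i - x j| ≤ k - q := by
    rintro (_ | u) (_ | v) h
    · exact h.elim
    · have h1 : v ≠ w := fun h2 => G.irrefl (show G.Adj w w by rw [h2] at h; exact h)
      show (q : ℤ) ≤ |g w - f v| ∧ |g w - f v| ≤ k - q
      rw [hfg v h1]
      exact hg.2 w v h
    · have h1 : u ≠ w := fun h2 => G.irrefl (show G.Adj w w by rw [h2] at h; exact h)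
      show (q : ℤ) ≤ |f u - g w| ∧ |f u - g w| ≤ k - q
      rw [hfg u h1]
      exact hg.2 u w h
    · exact hf.2 u v h
  have hsol : Solves E k q x := by
    refine ⟨hx0, ?_⟩
    rintro i j a b (⟨h1, h2, rfl, rfl⟩ | ⟨h1, h2, rfl, rfl⟩)
    · have h3 := (hx i j h1).1
      rw [abs_of_neg (by linarith)] at h3
      linarith
    · have h3 := (hx i j h1).2
      rw [abs_of_pos (by linarith)] at h3
      linarith
  obtain ⟨y, hy1, hy2⟩ := transfer (N := N) E (by
    rintro i j a b (⟨_, _, rfl, rfl⟩ | ⟨_, _, rfl, rfl⟩) <;> simp) (by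
      rw [Fintype.card_option]; push_cast; linarith) hsame hsol
  -- properties of the new solution
  have hne : ∀ i j, adj' G w i j → x i ≠ x j := by
    intro i j h h2
    have h3 := (hx i j h).1
    rw [h2, sub_self, abs_zero] at h3
    have : (0 : ℤ) < q := by exact_mod_cast hq
    omega
  have hq' : (0 : ℤ) < q' := by
    by_contra h
    have h1 := (hsame 0 (-1) (by simp; linarith [Nat.cast_nonneg (α := ℤ) (Fintype.card V)])
      (by simp; linarith [Nat.cast_nonneg (α := ℤ) (Fintype.card V)])).mpr (by linarith)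
    have : (0 : ℤ) < q := by exact_mod_cast hq
    linarith
  have hlt : ∀ i j, adj' G w i j → x i < x j → y i < y j ∧ (q' : ℤ) ≤ |y i - y j| ∧
      |y i - y j| ≤ k' - q' := by
    intro i j h h2
    have h3 := hy2 i j 0 1 (Or.inl ⟨h, h2, rfl, rfl⟩)
    have h4 := hy2 j i (-1) 1 (Or.inr ⟨adj'_symm G w i j h, h2, rfl, rfl⟩)
    have h5 : y i < y j := by linarith
    rw [abs_of_neg (by linarith)]
    exact ⟨h5, by linarith, by linarith⟩
  have hcol : ∀ i j, adj' G w i j → (q' : ℤ) ≤ |y i - y j| ∧ |y i - y j| ≤ k' - q' := by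
    intro i j h
    rcases lt_or_gt_of_ne (hne i j h) with h1 | h1
    · exact (hlt i j h h1).2
    · have := (hlt j i (adj'_symm G w i j h) h1).2
      rwa [abs_sub_comm] at this
  have hori : ∀ i j, adj' G w i j → (x i < x j ↔ y i < y j) := by
    intro i j h
    refine ⟨fun h1 => (hlt i j h h1).1, fun h1 => ?_⟩
    rcases lt_or_gt_of_ne (hne i j h) with h2 | h2
    · exact h2
    · have := (hlt j i (adj'_symm G w i j h) h2).1
      linarith
  let g' : V → ℤ := fun v => if v = w then y none else y (some v)
  let ι : V → Option V := fun v => if v = w then none else some v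
  have hg' : ∀ v, g' v = y (ι v) := by
    intro v
    by_cases h : v = w
    · simp only [g', ι, if_pos h]
    · simp only [g', ι, if_neg h]
  have hgx : ∀ v, g v = x (ι v) := by
    intro v
    by_cases h : v = w
    · simp only [ι, if_pos h]; rw [h]
    · simp only [ι, if_neg h]; exact (hfg v h).symm
  have hadj : ∀ u v, G.Adj u v → adj' G w (ι u) (ι v) := by
    intro u v h
    by_cases hu : u = w
    · subst hu
      have hv : v ≠ u := h.ne'
      simp only [ι, if_pos rfl, if_neg hv]
      exact h
    · by_cases hv : v = w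
      · subst hv
        simp only [ι, if_pos rfl, if_neg hu]
        exact h
      · simp only [ι, if_neg hu, if_neg hv]
        exact h
  refine ⟨fun v => y (some v), g', ⟨fun v => hy1 _, fun u v h => hcol (some u) (some v) h⟩,
    ⟨fun v => by rw [hg']; exact hy1 _, fun u v h => ?_⟩, fun u hu => ?_, fun u v h => ?_,
    fun u v h => ?_⟩
  · rw [hg', hg']; exact hcol _ _ (hadj u v h)
  · simp only [g', if_neg hu]
  · exact hori (some u) (some v) h
  · rw [hg', hg', hgx, hgx]; exact hori _ _ (hadj u v h)

/-- `(k, q)` is generic: no form with coefficients at most `N` vanishes. -/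
def Generic (N : ℤ) (k q : ℤ) : Prop :=
  ∀ A B : ℤ, |A| ≤ N → |B| ≤ N → A * k + B * q = 0 → A = 0 ∧ B = 0

theorem descend {k q : ℕ} (hq : 0 < q) {N : ℤ} (hN : (Fintype.card V : ℤ) ≤ N) (hgen : Generic N k q)
    {m : V → ℤ} (hm : IsColouring G k q m) :
    ∀ (n : ℕ) (f : V → ℤ), IsColouring G k q f → SameOri G f m → (∀ v, m v ≤ f v) →
      (∑ v, (f v - m v)) = n → Relation.ReflTransGen (Move G k q) f m := by
  classical
  intro n
  induction n with
  | zero =>
    intro f hf hori hle hsum
    have h1 : ∀ v, f v = m v := by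
      intro v
      have h2 := (Finset.sum_eq_zero_iff_of_nonneg (fun v _ => sub_nonneg.mpr (hle v))).mp
        (by exact_mod_cast hsum) v (Finset.mem_univ v)
      linarith
    have h2 : f = m := funext h1
    rw [h2]
  | succ n ih =>
    intro f hf hori hle hsum
    -- some vertex can be decreased
    have hstep : ∃ v, m v < f v ∧ ∀ u, G.Adj v u →
        (f u < f v → f v - f u ≠ q) ∧ (f v < f u → f u - f v ≠ k - q) := by
      by_contra hcon
      push Not at hcon
      have hblock : ∀ v : {v // m v < f v}, ∃ u : {v // m v < f v},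
          (f v.1 - f u.1 = q) ∨ (f v.1 - f u.1 = -(k - q)) := by
        rintro ⟨v, hv⟩
        obtain ⟨u, huv, h⟩ := hcon v hv
        by_cases h1 : f u < f v ∧ f v - f u = q
        · have h2 : m u < m v := (hori u v huv.symm).mp h1.1
          have h3 := (hm.2 v u huv).1
          rw [abs_of_pos (by linarith)] at h3
          exact ⟨⟨u, by linarith [h1.2]⟩, Or.inl h1.2⟩
        · have h2 := h (fun h3 h4 => h1 ⟨h3, h4⟩)
          have h4 : m v < m u := (hori v u huv).mp h2.1
          have h3 := (hm.2 v u huv).2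
          rw [abs_of_neg (by linarith)] at h3
          exact ⟨⟨u, by linarith [h2.2]⟩, Or.inr (by linarith [h2.2])⟩
      choose b hb using hblock
      have hpos : ∃ v, m v < f v := by
        by_contra hcon2
        push Not at hcon2
        have : ∑ v, (f v - m v) ≤ 0 := Finset.sum_nonpos fun v _ => by linarith [hcon2 v]
        rw [hsum] at this
        have h5 : (0 : ℤ) < ((n + 1 : ℕ) : ℤ) := by positivity
        linarith
      obtain ⟨v₀, hv₀⟩ := hpos
      have htel : ∀ (v : {v // m v < f v}) (t : ℕ), ∃ α β : ℕ, α + β = t ∧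
          f v.1 - f (b^[t] v).1 = α * q - β * (k - q) := by
        intro v t
        induction t with
        | zero => exact ⟨0, 0, rfl, by simp⟩
        | succ t iht =>
          obtain ⟨α, β, h1, h2⟩ := iht
          rw [Function.iterate_succ_apply']
          rcases hb (b^[t] v) with h3 | h3
          · exact ⟨α + 1, β, by omega, by push_cast; linarith⟩
          · exact ⟨α, β + 1, by omega, by push_cast; linarith⟩
      -- pigeonhole
      obtain ⟨i, j, hij, hbij⟩ : ∃ i j : Fin (Fintype.card V + 1), i < j ∧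
          (b^[(i : ℕ)] ⟨v₀, hv₀⟩) = (b^[(j : ℕ)] ⟨v₀, hv₀⟩) := by
        have hcard : Fintype.card {v // m v < f v} < Fintype.card (Fin (Fintype.card V + 1)) := by
          rw [Fintype.card_fin]
          exact Nat.lt_succ_of_le (Fintype.card_subtype_le _)
        obtain ⟨i, j, hne, h⟩ := Fintype.exists_ne_map_eq_of_card_lt
          (fun i : Fin (Fintype.card V + 1) => (b^[(i : ℕ)] ⟨v₀, hv₀⟩)) hcard
        rcases lt_or_gt_of_ne hne with h1 | h1
        · exact ⟨i, j, h1, h⟩
        · exact ⟨j, i, h1, h.symm⟩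
      obtain ⟨α, β, h1, h2⟩ := htel (b^[(i : ℕ)] ⟨v₀, hv₀⟩) ((j : ℕ) - i)
      have hij' : (i : ℕ) < j := hij
      rw [← Function.iterate_add_apply, Nat.sub_add_cancel hij'.le, ← hbij, sub_self] at h2
      have hj : (j : ℕ) ≤ Fintype.card V := Nat.lt_succ_iff.mp j.2
      have hαβ : ((α : ℤ) + β) ≤ Fintype.card V := by
        have : α + β ≤ Fintype.card V := by omega
        exact_mod_cast this
      have hβ0 : (0 : ℤ) ≤ β := Nat.cast_nonneg _
      have hα0 : (0 : ℤ) ≤ α := Nat.cast_nonneg _
      have h3 := hgen (-(β : ℤ)) (α + β) (by rw [abs_neg, abs_of_nonneg hβ0]; linarith)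
        (by rw [abs_of_nonneg (by linarith)]; linarith) (by linarith)
      have h4 : (α : ℤ) + β = ((j : ℕ) - i : ℕ) := by exact_mod_cast h1
      have h5 : 0 < (j : ℕ) - i := by omega
      have h6 : (0 : ℤ) < (((j : ℕ) - i : ℕ) : ℤ) := by exact_mod_cast h5
      linarith [h3.2]
    obtain ⟨v, hv, hfree⟩ := hstep
    let f' : V → ℤ := Function.update f v (f v - 1)
    have hf'v : f' v = f v - 1 := Function.update_self _ _ _
    have hf'u : ∀ u, u ≠ v → f' u = f u := fun u hu => Function.update_of_ne hu _ _
    have key : ∀ u, G.Adj v u → (q : ℤ) ≤ |f' v - f' u| ∧ |f' v - f' u| ≤ k - q ∧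
        (f v < f u ↔ f' v < f' u) ∧ (f u < f v ↔ f' u < f' v) := by
      intro u huv
      rw [hf'v, hf'u u huv.ne']
      obtain ⟨h1, h2⟩ := hf.2 v u huv
      obtain ⟨h3, h4⟩ := hfree u huv
      obtain ⟨h5, h6⟩ := hm.2 v u huv
      have ho1 := hori u v huv.symm
      have ho2 := hori v u huv
      rcases lt_trichotomy (f u) (f v) with h7 | h7 | h7
      · rw [abs_of_pos (by linarith)] at h1 h2
        have h8 := h3 h7
        have h9 : (q : ℤ) < f v - f u := lt_of_le_of_ne h1 (Ne.symm h8)
        have h10 : (0 : ℤ) < q := by exact_mod_cast hq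
        rw [abs_of_nonneg (by linarith)]
        refine ⟨by linarith, by linarith, ?_, ?_⟩
        · constructor <;> intro h <;> omega
        · constructor <;> intro _ <;> omega
      · -- equal values are impossible
        rw [h7, sub_self, abs_zero] at h1 h2
        have h10 : (0 : ℤ) < q := by exact_mod_cast hq
        linarith
      · rw [abs_of_neg (by linarith)] at h1 h2
        have h8 := h4 h7
        have h9 : f u - f v < (k : ℤ) - q := lt_of_le_of_ne (by linarith) h8
        have h10 : (0 : ℤ) < q := by exact_mod_cast hq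
        rw [abs_of_neg (by linarith)]
        refine ⟨by linarith, by linarith, ?_, ?_⟩
        · constructor <;> intro _ <;> omega
        · constructor <;> intro h <;> omega
    have hf' : IsColouring G k q f' := by
      refine ⟨fun u => ?_, fun u w huw => ?_⟩
      · by_cases hu : u = v
        · subst hu
          rw [hf'v]
          have h1 := hf.1 u
          have h2 := hm.1 u
          constructor <;> linarith
        · rw [hf'u u hu]; exact hf.1 u
      · by_cases hu : u = v
        · subst hu
          exact ⟨(key w huw).1, (key w huw).2.1⟩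
        · by_cases hw : w = v
          · subst hw
            rw [abs_sub_comm]
            exact ⟨(key u huw.symm).1, (key u huw.symm).2.1⟩
          · rw [hf'u u hu, hf'u w hw]; exact hf.2 u w huw
    have hori' : SameOri G f' m := by
      refine SameOri.trans G (fun u w huw => ?_) hori
      by_cases hu : u = v
      · subst hu
        exact ((key w huw).2.2.1).symm
      · by_cases hw : w = v
        · subst hw
          exact ((key u huw.symm).2.2.2).symm
        · rw [hf'u u hu, hf'u w hw]
    have hsum' : ∑ u, (f' u - m u) = n := by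
      have h1 : ∑ u, (f' u - m u) = ∑ u, (f u - m u) - 1 := by
        have h2 : ∀ u, f' u - m u = (f u - m u) - (if u = v then 1 else 0) := by
          intro u
          by_cases hu : u = v
          · subst hu; rw [hf'v, if_pos rfl]; ring
          · rw [hf'u u hu, if_neg hu]; ring
        rw [Finset.sum_congr rfl fun u _ => h2 u, Finset.sum_sub_distrib]
        simp
      rw [h1, hsum]; push_cast; ring
    have hle' : ∀ u, m u ≤ f' u := by
      intro u
      by_cases hu : u = v
      · subst hu; rw [hf'v]; linarith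
      · rw [hf'u u hu]; exact hle u
    exact Relation.ReflTransGen.head ⟨hf, hf', v, fun u hu => (hf'u u hu).symm⟩
      (ih f' hf' hori' hle' hsum')

end colourings

/-! ### Transfer of mixing -/

section mixing

variable {V : Type} (G : SimpleGraph V)

theorem move_symm {k q : ℕ} {f g : V → ℤ} (h : Move G k q f g) : Move G k q g f := by
  obtain ⟨hf, hg, v, h⟩ := h
  exact ⟨hg, hf, v, fun u hu => (h u hu).symm⟩

theorem path_symm {k q : ℕ} {f g : V → ℤ} (h : Relation.ReflTransGen (Move G k q) f g) :
    Relation.ReflTransGen (Move G k q) g f := by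
  induction h with
  | refl => exact Relation.ReflTransGen.refl
  | tail _ hstep ih => exact Relation.ReflTransGen.head (move_symm G hstep) ih

variable [Fintype V]

theorem connect {k q : ℕ} (hq : 0 < q) {N : ℤ} (hN : (Fintype.card V : ℤ) ≤ N)
    (hgen : Generic N k q) {f g : V → ℤ} (hf : IsColouring G k q f) (hg : IsColouring G k q g)
    (hfg : SameOri G f g) : Relation.ReflTransGen (Move G k q) f g := by
  have hq0 : (0 : ℤ) < q := by exact_mod_cast hq
  let m : V → ℤ := fun v => min (f v) (g v)
  have key : ∀ u v, G.Adj u v → f u < f v → (q : ℤ) ≤ m v - m u ∧ m v - m u ≤ k - q := by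
    intro u v huv h
    have h' : g u < g v := (hfg u v huv).mp h
    obtain ⟨h1, h2⟩ := hf.2 u v huv
    obtain ⟨h3, h4⟩ := hg.2 u v huv
    rw [abs_of_neg (by linarith)] at h1 h2 h3 h4
    simp only [m]
    rcases le_total (f u) (g u) with h5 | h5 <;> rcases le_total (f v) (g v) with h6 | h6
    · rw [min_eq_left h5, min_eq_left h6]; constructor <;> linarith
    · rw [min_eq_left h5, min_eq_right h6]; constructor <;> linarith
    · rw [min_eq_right h5, min_eq_left h6]; constructor <;> linarith
    · rw [min_eq_right h5, min_eq_right h6]; constructor <;> linarith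
  have hne : ∀ u v, G.Adj u v → f u ≠ f v := by
    intro u v huv h
    have h1 := (hf.2 u v huv).1
    rw [h, sub_self, abs_zero] at h1
    linarith
  have hm : IsColouring G k q m := by
    refine ⟨fun v => ⟨le_min (hf.1 v).1 (hg.1 v).1, lt_of_le_of_lt (min_le_left _ _) (hf.1 v).2⟩,
      fun u v huv => ?_⟩
    rcases lt_or_gt_of_ne (hne u v huv) with h | h
    · obtain ⟨h1, h2⟩ := key u v huv h
      rw [abs_of_neg (by linarith)]
      constructor <;> linarith
    · obtain ⟨h1, h2⟩ := key v u huv.symm h
      rw [abs_of_pos (by linarith)]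
      constructor <;> linarith
  have hfm : SameOri G f m := by
    intro u v huv
    refine ⟨fun h => by linarith [(key u v huv h).1], fun h => ?_⟩
    rcases lt_or_gt_of_ne (hne u v huv) with h1 | h1
    · exact h1
    · linarith [(key v u huv.symm h1).1]
  have hgm : SameOri G g m := SameOri.trans G (SameOri.symm G hfg) hfm
  have h1 : ∀ h : V → ℤ, (∀ v, m v ≤ h v) → ∃ n : ℕ, ∑ v, (h v - m v) = n := by
    intro h hh
    exact ⟨(∑ v, (h v - m v)).toNat, (Int.toNat_of_nonneg
      (Finset.sum_nonneg fun v _ => sub_nonneg.mpr (hh v))).symm⟩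
  obtain ⟨n1, hn1⟩ := h1 f fun v => min_le_left _ _
  obtain ⟨n2, hn2⟩ := h1 g fun v => min_le_right _ _
  have p1 := descend G hq hN hgen hm n1 f hf hfm (fun v => min_le_left _ _) hn1
  have p2 := descend G hq hN hgen hm n2 g hg hgm (fun v => min_le_right _ _) hn2
  exact p1.trans (path_symm G p2)

theorem mixing_transfer {k q k' q' : ℕ} (hq : 0 < q) (hq' : 0 < q') {N : ℤ}
    (hN : 2 * (Fintype.card V : ℤ) + 3 ≤ N) (hgen' : Generic N k' q')
    (hsame : SameSigns N k q k' q') (hmix : IsMixing G k q) : IsMixing G k' q' := by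
  intro f' g' hf' hg'
  rcases isEmpty_or_nonempty V with hV | ⟨⟨w⟩⟩
  · have : f' = g' := Subsingleton.elim _ _
    rw [this]
  have hsame' : SameSigns N k' q' k q := fun A B hA hB => (hsame A B hA hB).symm
  have hN' : (Fintype.card V : ℤ) ≤ N := by linarith [Nat.cast_nonneg (α := ℤ) (Fintype.card V)]
  obtain ⟨f, _, hf, _, _, hff, _⟩ := lift_move G hq' hN hsame' w hf' hf' (fun _ _ => rfl)
  obtain ⟨g, _, hg, _, _, hgg, _⟩ := lift_move G hq' hN hsame' w hg' hg' (fun _ _ => rfl)
  have hpath := hmix f g hf hg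
  have key : ∀ h, Relation.ReflTransGen (Move G k q) f h → ∀ h', IsColouring G k' q' h' →
      SameOri G h h' → Relation.ReflTransGen (Move G k' q') f' h' := by
    intro h hh
    induction hh with
    | refl =>
      intro h' hh' ho
      exact connect G hq' hN' hgen' hf' hh' (SameOri.trans G hff ho)
    | tail _ hstep ih =>
      rename_i a b
      intro h' hh' ho
      obtain ⟨ha, hb, v, hv⟩ := hstep
      obtain ⟨a', b', ha', hb', hab, hoa, hob⟩ := lift_move G hq hN hsame v ha hb hv
      have p1 := ih a' ha' hoa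
      have p2 := connect G hq' hN' hgen' hb' hh' (SameOri.trans G (SameOri.symm G hob) ho)
      exact (p1.tail ⟨ha', hb', v, hab⟩).trans p2
  exact key g hpath g' hg' (SameOri.symm G hgg)

/-! ### Mixing for large ratios -/

/-- `a` and `b` may be values of adjacent vertices -/
def Far (k q : ℕ) (a b : ℤ) : Prop := (q : ℤ) ≤ |a - b| ∧ |a - b| ≤ k - q

theorem Far.symm {k q : ℕ} {a b : ℤ} (h : Far k q a b) : Far k q b a := by
  unfold Far at *
  rwa [abs_sub_comm]

theorem exists_far {k q : ℕ} (hq : 0 < q) (A : Finset ℤ) (hA : ∀ a ∈ A, 0 ≤ a ∧ a < (k : ℤ))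
    (hcard : 2 * q * (A.card + 1) < k) : ∃ x : ℤ, 0 ≤ x ∧ x < k ∧ ∀ a ∈ A, Far k q x a := by
  classical
  let bad : Finset ℤ := (A.biUnion fun a => Finset.Ioo (a - q) (a + q)) ∪
    (Finset.Ico 0 (q : ℤ) ∪ Finset.Ico ((k : ℤ) - q) k)
  have h1 : bad.card < (Finset.Ico (0 : ℤ) k).card := by
    have h2 : (A.biUnion fun a => Finset.Ioo (a - (q : ℤ)) (a + q)).card ≤ A.card * (2 * q) := by
      apply Finset.card_biUnion_le_card_mul
      intro a _
      rw [Int.card_Ioo]
      omega
    have h3 : (Finset.Ico 0 (q : ℤ) ∪ Finset.Ico ((k : ℤ) - q) k).card ≤ 2 * q := by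
      refine (Finset.card_union_le _ _).trans ?_
      rw [Int.card_Ico, Int.card_Ico]
      omega
    have h4 := Finset.card_union_le (A.biUnion fun a => Finset.Ioo (a - (q : ℤ)) (a + q))
      (Finset.Ico 0 (q : ℤ) ∪ Finset.Ico ((k : ℤ) - q) k)
    rw [Int.card_Ico]
    have h5 : ((k : ℤ) - 0).toNat = k := by simp
    rw [h5]
    have h6 : bad.card ≤ A.card * (2 * q) + 2 * q := h4.trans (Nat.add_le_add h2 h3)
    nlinarith
  obtain ⟨x, hx1, hx2⟩ := Finset.exists_mem_notMem_of_card_lt_card h1
  rw [Finset.mem_Ico] at hx1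
  simp only [bad, Finset.mem_union, Finset.mem_biUnion, Finset.mem_Ioo, Finset.mem_Ico,
    not_or, not_exists, not_and, not_lt] at hx2
  obtain ⟨h2, h3, h4⟩ := hx2
  have h5 : (q : ℤ) ≤ x := h3 hx1.1
  have h6 : x < k - q := by
    by_contra h
    push Not at h
    linarith [h4 h, hx1.2]
  refine ⟨x, hx1.1, hx1.2, fun a ha => ?_⟩
  have h7 := h2 a ha
  have h8 := hA a ha
  unfold Far
  rcases le_or_gt a x with h9 | h9
  · rw [abs_of_nonneg (by linarith)]
    constructor
    · by_contra h10
      push Not at h10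
      have := h7 (by linarith)
      linarith
    · linarith
  · rw [abs_of_neg (by linarith)]
    constructor
    · by_contra h10
      push Not at h10
      have := h7 (by linarith)
      linarith
    · linarith

theorem path_to_far {k q : ℕ} {f h : V → ℤ} (hf : IsColouring G k q f)
    (hh : ∀ v, 0 ≤ h v ∧ h v < k) (h1 : ∀ v u, Far k q (h v) (f u))
    (h2 : ∀ v u, u ≠ v → Far k q (h v) (h u)) : Relation.ReflTransGen (Move G k q) f h := by
  classical
  let mix : Finset V → V → ℤ := fun s v => if v ∈ s then h v else f v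
  have hmix : ∀ s, IsColouring G k q (mix s) := by
    intro s
    refine ⟨fun v => ?_, fun u v huv => ?_⟩
    · by_cases hv : v ∈ s
      · simp only [mix, if_pos hv]; exact hh v
      · simp only [mix, if_neg hv]; exact hf.1 v
    · show Far k q (mix s u) (mix s v)
      by_cases hu : u ∈ s <;> by_cases hv : v ∈ s
      · simp only [mix, if_pos hv, if_pos hu]; exact h2 u v huv.ne'
      · simp only [mix, if_neg hv, if_pos hu]; exact h1 u v
      · simp only [mix, if_pos hv, if_neg hu]; exact (h1 v u).symm
      · simp only [mix, if_neg hv, if_neg hu]; exact hf.2 u v huv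
  have hpath : ∀ s, Relation.ReflTransGen (Move G k q) f (mix s) := by
    intro s
    induction s using Finset.induction_on with
    | empty =>
      have : mix ∅ = f := by funext v; simp [mix]
      rw [this]
    | insert a s _ ih =>
      refine ih.tail ⟨hmix s, hmix _, a, fun u hu => ?_⟩
      simp [mix, Finset.mem_insert, hu]
  have : mix Finset.univ = h := by funext v; simp [mix]
  rw [← this]
  exact hpath _

theorem mixing_large {k q : ℕ} (hq : 0 < q) (hk : 2 * q * (3 * Fintype.card V + 1) < k) :
    IsMixing G k q := by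
  classical
  intro f g hf hg
  have hex : ∀ s : Finset V, ∃ h : V → ℤ, ∀ v ∈ s, (0 ≤ h v ∧ h v < k) ∧
      (∀ u, Far k q (h v) (f u)) ∧ (∀ u, Far k q (h v) (g u)) ∧
      ∀ u ∈ s, u ≠ v → Far k q (h v) (h u) := by
    intro s
    induction s using Finset.induction_on with
    | empty => exact ⟨fun _ => 0, fun v hv => absurd hv (Finset.notMem_empty v)⟩
    | insert a s ha ih =>
      obtain ⟨h, hh⟩ := ih
      let A : Finset ℤ := Finset.univ.image f ∪ (Finset.univ.image g ∪ s.image h)
      have hA : ∀ x ∈ A, 0 ≤ x ∧ x < (k : ℤ) := by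
        intro x hx
        rcases Finset.mem_union.mp hx with hx | hx
        · obtain ⟨u, _, rfl⟩ := Finset.mem_image.mp hx; exact hf.1 u
        · rcases Finset.mem_union.mp hx with hx | hx
          · obtain ⟨u, _, rfl⟩ := Finset.mem_image.mp hx; exact hg.1 u
          · obtain ⟨u, hu, rfl⟩ := Finset.mem_image.mp hx; exact (hh u hu).1
      have hcA : A.card ≤ 3 * Fintype.card V := by
        have e1 : (Finset.univ.image f).card ≤ Fintype.card V := Finset.card_image_le
        have e2 : (Finset.univ.image g).card ≤ Fintype.card V := Finset.card_image_le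
        have e3 : (s.image h).card ≤ Fintype.card V :=
          Finset.card_image_le.trans (Finset.card_le_univ s)
        have e4 := Finset.card_union_le (Finset.univ.image f) (Finset.univ.image g ∪ s.image h)
        have e5 := Finset.card_union_le (Finset.univ.image g) (s.image h)
        have e6 : A.card ≤ (Finset.univ.image f).card +
          (Finset.univ.image g ∪ s.image h).card := e4
        omega
      obtain ⟨x, hx0, hx1, hx2⟩ := exists_far hq A hA (by
        refine lt_of_le_of_lt ?_ hk
        exact Nat.mul_le_mul_left _ (by omega))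
      refine ⟨Function.update h a x, fun v hv => ?_⟩
      by_cases hva : v = a
      · subst hva
        rw [Function.update_self]
        refine ⟨⟨hx0, hx1⟩, fun u => hx2 _ ?_, fun u => hx2 _ ?_, fun u hu huv => ?_⟩
        · exact Finset.mem_union_left _ (Finset.mem_image_of_mem f (Finset.mem_univ u))
        · exact Finset.mem_union_right _ (Finset.mem_union_left _
            (Finset.mem_image_of_mem g (Finset.mem_univ u)))
        · rw [Function.update_of_ne huv]
          exact hx2 _ (Finset.mem_union_right _ (Finset.mem_union_right _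
            (Finset.mem_image_of_mem h ((Finset.mem_insert.mp hu).resolve_left huv))))
      · have hvs : v ∈ s := (Finset.mem_insert.mp hv).resolve_left hva
        rw [Function.update_of_ne hva]
        obtain ⟨e1, e2, e3, e4⟩ := hh v hvs
        refine ⟨e1, e2, e3, fun u hu huv => ?_⟩
        by_cases hua : u = a
        · subst hua
          rw [Function.update_self]
          exact (hx2 _ (Finset.mem_union_right _ (Finset.mem_union_right _
            (Finset.mem_image_of_mem h hvs)))).symm
        · rw [Function.update_of_ne hua]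
          exact e4 u ((Finset.mem_insert.mp hu).resolve_left hua) huv
  obtain ⟨h, hh⟩ := hex Finset.univ
  have p1 := path_to_far G (h := h) hf (fun v => (hh v (Finset.mem_univ v)).1)
    (fun v => (hh v (Finset.mem_univ v)).2.1)
    (fun v u huv => (hh v (Finset.mem_univ v)).2.2.2 u (Finset.mem_univ u) huv)
  have p2 := path_to_far G (h := h) hg (fun v => (hh v (Finset.mem_univ v)).1)
    (fun v => (hh v (Finset.mem_univ v)).2.2.1)
    (fun v u huv => (hh v (Finset.mem_univ v)).2.2.2 u (Finset.mem_univ u) huv)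
  exact p1.trans (path_symm G p2)

theorem mixingSet_nonempty : (mixingSet G).Nonempty := by
  refine ⟨((6 * Fintype.card V + 3 : ℕ) : ℚ), ((6 * Fintype.card V + 3 : ℕ) : ℚ), by positivity,
    rfl, fun k q _ hq h => mixing_large G hq ?_⟩
  have hq' : (0 : ℚ) < q := by exact_mod_cast hq
  rw [le_div_iff₀ hq'] at h
  have h2 : (6 * Fintype.card V + 3) * q ≤ k := by exact_mod_cast h
  nlinarith

/-- **The circular mixing threshold of every finite graph is rational.** The infimum is over a
nonempty set of positive rationals. -/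
theorem result : (mixingSet G).Nonempty ∧ BddBelow (mixingSet G) ∧
    ∃ r : ℚ, circularMixingThreshold G = r := by
  have hbdd : BddBelow (mixingSet G) := by
    refine ⟨0, ?_⟩
    rintro x ⟨ℓ, hℓ, rfl, _⟩
    exact_mod_cast hℓ.le
  refine ⟨mixingSet_nonempty G, hbdd, ?_⟩
  by_contra hirr
  push Not at hirr
  set r₀ := circularMixingThreshold G with hr₀
  have hr0 : 0 ≤ r₀ := by
    apply le_csInf (mixingSet_nonempty G)
    rintro x ⟨ℓ, hℓ, rfl, _⟩
    exact_mod_cast hℓ.le
  have hr0' : 0 < r₀ := lt_of_le_of_ne hr0 (fun h => hirr 0 (by rw [← h]; simp))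
  let N : ℤ := 2 * (Fintype.card V : ℤ) + 3
  have hnz : ∀ A B : ℤ, (A, B) ≠ (0, 0) → (A : ℝ) * r₀ + B ≠ 0 := by
    intro A B hAB h
    by_cases hA : A = 0
    · subst hA
      simp only [Int.cast_zero, zero_mul, zero_add, Int.cast_eq_zero] at h
      exact hAB (by rw [h])
    · have hA' : (A : ℝ) ≠ 0 := by exact_mod_cast hA
      apply hirr (-(B : ℚ) / A)
      push_cast
      field_simp
      linarith
  -- the sign pattern near `r₀`
  have hpat : ∀ᶠ r in nhds r₀, ∀ p ∈ (Finset.Icc (-N) N ×ˢ Finset.Icc (-N) N : Finset (ℤ × ℤ)),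
      p ≠ (0, 0) → ((p.1 : ℝ) * r + p.2 ≠ 0) ∧
        (0 ≤ (p.1 : ℝ) * r + p.2 ↔ 0 ≤ (p.1 : ℝ) * r₀ + p.2) := by
    rw [Filter.eventually_all_finset]
    intro p _
    by_cases hp : p = (0, 0)
    · exact Filter.Eventually.of_forall fun r h => absurd hp h
    · have h1 := hnz p.1 p.2 hp
      have hcont : Continuous fun r : ℝ => (p.1 : ℝ) * r + p.2 := by fun_prop
      rcases lt_or_gt_of_ne h1 with h2 | h2
      · have h3 : ∀ᶠ r in nhds r₀, (p.1 : ℝ) * r + p.2 < 0 :=
          hcont.continuousAt.eventually_lt continuousAt_const h2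
        filter_upwards [h3] with r hr _
        exact ⟨hr.ne, by constructor <;> intro h <;> linarith⟩
      · have h3 : ∀ᶠ r in nhds r₀, 0 < (p.1 : ℝ) * r + p.2 :=
          continuousAt_const.eventually_lt hcont.continuousAt h2
        filter_upwards [h3] with r hr _
        exact ⟨hr.ne', by constructor <;> intro h <;> linarith⟩
  rw [Metric.eventually_nhds_iff] at hpat
  obtain ⟨ε, hε, hpat⟩ := hpat
  have habs : ∀ A B : ℤ, |A| ≤ N → |B| ≤ N →
      (A, B) ∈ (Finset.Icc (-N) N ×ˢ Finset.Icc (-N) N : Finset (ℤ × ℤ)) := by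
    intro A B hA hB
    rw [Finset.mem_product, Finset.mem_Icc, Finset.mem_Icc]
    exact ⟨abs_le.mp hA, abs_le.mp hB⟩
  -- consequences for pairs
  have hform : ∀ (k q : ℕ), 0 < q → ∀ A B : ℤ,
      ((A * k + B * q : ℤ) : ℝ) = q * ((A : ℝ) * ((k : ℝ) / q) + B) := by
    intro k q hq A B
    have : (q : ℝ) ≠ 0 := by exact_mod_cast hq.ne'
    push_cast
    field_simp
  have hgen : ∀ (k q : ℕ), 0 < q → dist ((k : ℝ) / q) r₀ < ε → Generic N k q := by
    intro k q hq hd A B hA hB h
    by_contra hne
    have h1 := (hpat hd (A, B) (habs A B hA hB) (fun h2 => hne (by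
      rw [Prod.mk.injEq] at h2; exact h2))).1
    have h2 := hform k q hq A B
    rw [h, Int.cast_zero] at h2
    have : (q : ℝ) ≠ 0 := by exact_mod_cast hq.ne'
    rcases mul_eq_zero.mp h2.symm with h3 | h3
    · exact this h3
    · exact h1 h3
  have hsign : ∀ (k q : ℕ), 0 < q → dist ((k : ℝ) / q) r₀ < ε → ∀ A B : ℤ, |A| ≤ N → |B| ≤ N →
      (0 ≤ A * k + B * q ↔ 0 ≤ (A : ℝ) * r₀ + B) := by
    intro k q hq hd A B hA hB
    by_cases hz : (A, B) = (0, 0)
    · rw [Prod.mk.injEq] at hz
      rw [hz.1, hz.2]
      simp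
    have h1 := (hpat hd (A, B) (habs A B hA hB) hz).2
    rw [← h1]
    have h2 := hform k q hq A B
    have hq' : (0 : ℝ) < q := by exact_mod_cast hq
    have h3 : (0 ≤ A * (k : ℤ) + B * q) ↔ (0 : ℝ) ≤ ((A * k + B * q : ℤ) : ℝ) := by
      exact_mod_cast Iff.rfl
    rw [h3, h2]
    exact ⟨fun h => nonneg_of_mul_nonneg_right h hq', fun h => mul_nonneg hq'.le h⟩
  have habove : ∀ (k q : ℕ), 0 < k → 0 < q → r₀ < (k : ℝ) / q → IsMixing G k q := by
    intro k q hk hq h
    obtain ⟨x, ⟨ℓ, _, rfl, hℓ⟩, hx⟩ := exists_lt_of_csInf_lt (mixingSet_nonempty G) h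
    apply hℓ k q hk hq
    have h2 : ((ℓ : ℚ) : ℝ) ≤ (((k : ℚ) / q : ℚ) : ℝ) := by push_cast; exact hx.le
    exact_mod_cast h2
  -- a good pair above `r₀`
  obtain ⟨ρ, hρ1, hρ2⟩ := exists_rat_btwn (show r₀ < r₀ + ε by linarith)
  have hρ0 : 0 < ρ := by
    have : (0 : ℝ) < ρ := hr0'.trans hρ1
    exact_mod_cast this
  have hρeq : ((ρ.num.toNat : ℕ) : ℝ) / ρ.den = ρ := by
    have h1 : ((ρ.num.toNat : ℕ) : ℤ) = ρ.num := Int.toNat_of_nonneg (Rat.num_pos.mpr hρ0).le
    have h2 : ((ρ.num.toNat : ℕ) : ℝ) = ((ρ.num : ℤ) : ℝ) := by rw [← Int.cast_natCast, h1]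
    rw [h2]
    exact_mod_cast Rat.num_div_den ρ
  have hρk : 0 < ρ.num.toNat := by
    have := Rat.num_pos.mpr hρ0
    omega
  have hρmix : IsMixing G ρ.num.toNat ρ.den := habove _ _ hρk ρ.den_pos (by rw [hρeq]; exact hρ1)
  have hρd : dist (((ρ.num.toNat : ℕ) : ℝ) / ρ.den) r₀ < ε := by
    rw [hρeq, Real.dist_eq, abs_of_pos (by linarith)]
    linarith
  -- a rational below `r₀` in the set
  obtain ⟨ℓ₁, hℓ1, hℓ2⟩ := exists_rat_btwn (show max (r₀ - ε) 0 < r₀ from max_lt (by linarith) hr0')
  have hℓ0 : (0 : ℝ) < ℓ₁ := lt_of_le_of_lt (le_max_right _ _) hℓ1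
  have hℓε : r₀ - ε < ℓ₁ := lt_of_le_of_lt (le_max_left _ _) hℓ1
  have hmem : ((ℓ₁ : ℚ) : ℝ) ∈ mixingSet G := by
    refine ⟨ℓ₁, by exact_mod_cast hℓ0, rfl, fun k q hk hq h => ?_⟩
    have h' : (ℓ₁ : ℝ) ≤ (k : ℝ) / q := by
      have : ((ℓ₁ : ℚ) : ℝ) ≤ (((k : ℚ) / q : ℚ) : ℝ) := by exact_mod_cast h
      push_cast at this
      exact this
    rcases lt_trichotomy ((k : ℝ) / q) r₀ with h1 | h1 | h1
    · have hd : dist ((k : ℝ) / q) r₀ < ε := by
        rw [Real.dist_eq, abs_of_neg (by linarith)]
        linarith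
      refine mixing_transfer G ρ.den_pos hq (le_refl _) (hgen k q hq hd) ?_ hρmix
      intro A B hA hB
      have e1 := hsign _ _ ρ.den_pos hρd A B hA hB
      have e2 := hsign k q hq hd A B hA hB
      exact e1.trans e2.symm
    · exact absurd h1.symm (by
        have := hirr ((k : ℚ) / q)
        push_cast at this
        exact this)
    · exact habove k q hk hq h1
  have := csInf_le hbdd hmem
  change r₀ ≤ ℓ₁ at this
  linarith

end mixing

end Pool.Agent.Results.MP_05142a_co.Rational
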